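import Pool.Agent.Lib.MP_cc389e_ag.Main

/-!
A smooth projective variety with pseudo-effective tangent bundle whose MRC fibration is not
locally trivial.
-/

namespace Pool.Agent.Results.MP_cc389e_ag.MRCNotLocallyTrivial

open Pool.Agent.Lib.MP_cc389e_ag

/-- There is a smooth projective variety `X` with pseudo-effective tangent bundle which has a
holomorphic MRC fibration onto a smooth projective variety, and no holomorphic MRC fibration of
`X` is locally trivial. -/
theorem result : ∃ X : ProjManifold, TangentPseudoEffective X.model X.carrier ∧
    (∃ (Y : ProjManifold) (φ : X.carrier → Y.carrier), IsMRC X.model Y.model φ) ∧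
    ∀ (Y : ProjManifold) (φ : X.carrier → Y.carrier), IsMRC X.model Y.model φ →
      ¬ LocallyTrivial X.model Y.model φ :=
  ⟨TotalX, pseff_X, ⟨CurveC, phiX, isMRC_phi⟩, not_locallyTrivial⟩

end Pool.Agent.Results.MP_cc389e_ag.MRCNotLocallyTrivial
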